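import Mathlib
set_option autoImplicit false

/-! Counting the integers coprime to `210` in `(y / 2, y]`, and the reduction to the top range. -/

namespace Pool.Agent.E8helper15.TR

open Finset

/-- the number of the integers below `t` coprime to `210` -/
def cp (t : ℕ) : ℕ := Nat.count (fun m => Nat.Coprime m 210) t

theorem cp_add (t : ℕ) : cp (210 + t) = 48 + cp t := by
  have h1 : Nat.count (fun m => Nat.Coprime m 210) 210 = 48 := by decide +kernel
  have h2 : (fun m => Nat.Coprime (210 + m) 210) = (fun m => Nat.Coprime m 210) := by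
    funext m
    rw [Nat.add_comm, Nat.coprime_add_self_left]
  have h3 : Nat.count (fun m => Nat.Coprime (210 + m) 210) t =
      Nat.count (fun m => Nat.Coprime m 210) t := by
    simp only [h2]
  unfold cp
  rw [Nat.count_add, h1, h3]

theorem cp_add_mul (a t : ℕ) : cp (210 * a + t) = 48 * a + cp t := by
  induction a with
  | zero => simp
  | succ a ih =>
    have e : 210 * (a + 1) + t = 210 + (210 * a + t) := by ring
    rw [e, cp_add, ih]
    ring

/-- the number of the integers coprime to `210` in `(y / 2, y]` -/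
def cn (y : ℕ) : ℕ := ((Ioc (y / 2) y).filter (fun m => Nat.Coprime m 210)).card

theorem cn_eq (y : ℕ) : cn y + cp (y / 2 + 1) = cp (y + 1) := by
  unfold cn cp
  rw [Nat.count_eq_card_filter_range, Nat.count_eq_card_filter_range]
  have h : (range (y + 1)).filter (fun m => Nat.Coprime m 210) =
      (Ioc (y / 2) y).filter (fun m => Nat.Coprime m 210) ∪
        (range (y / 2 + 1)).filter (fun m => Nat.Coprime m 210) := by
    rw [← filter_union]
    congr 1
    ext m
    simp only [mem_union, mem_Ioc, mem_range]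
    omega
  rw [h, card_union_of_disjoint]
  rw [disjoint_left]
  intro m hm hm'
  have h1 := (mem_filter.1 hm).1
  have h2 := (mem_filter.1 hm').1
  rw [mem_Ioc] at h1
  rw [mem_range] at h2
  omega

theorem small1 : ∀ b < 420, 8 * cp (b + 1) ≤ b + 8 * cp (b / 2 + 1) + 13 := by
  decide +kernel

/-- the exceptional lengths -/
def L : Finset ℕ := {13, 17, 19, 23, 29, 31, 37, 43, 47, 53, 61, 71, 73, 79, 199}

theorem small2 : ∀ b < 420, 2 ≤ b → Nat.Coprime b 210 → b ∉ L →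
    8 * cp (b + 1) ≤ b + 8 * cp (b / 2 + 1) := by
  decide +kernel

theorem cn_le {y : ℕ} (h2 : 2 ≤ y) (hc : Nat.Coprime y 210) (hL : y ∉ L) : cn y ≤ y / 8 := by
  have h := cn_eq y
  rcases Nat.lt_or_ge y 420 with hy | hy
  · have := small2 y hy h2 hc hL
    omega
  · obtain ⟨a, b, hb, e⟩ : ∃ a b, b < 420 ∧ y = 420 * a + b :=
      ⟨y / 420, y % 420, Nat.mod_lt _ (by norm_num), (Nat.div_add_mod y 420).symm⟩
    have ha : 1 ≤ a := by omega
    have e1 : y + 1 = 210 * (2 * a) + (b + 1) := by omega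
    have e2 : y / 2 + 1 = 210 * a + (b / 2 + 1) := by omega
    rw [e1, e2, cp_add_mul, cp_add_mul] at h
    have h3 := small1 b hb
    omega

theorem L_facts {y : ℕ} (hy : y ∈ L) : 4 ≤ y ∧ y ≤ 199 := by
  revert y
  decide

section main

open Classical

/-- the assertion of the problem for a set `E` of exceptions, `x` and `q` -/
def Few (E : ℕ → Prop) (x : ℝ) (q : ℕ) : Prop :=
  (((Icc 1 ⌊x⌋₊).filter (fun n : ℕ => x / 2 < (n : ℝ) ∧ Even n ∧ q ∣ n ∧ E n)).card : ℝ) ≤
    x / (8 * (q : ℝ))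

/-- the conditions -/
def Cond (E : ℕ → Prop) (n₀ : ℕ) : Prop :=
  (∀ n, n₀ ≤ n → (4 ∣ n ∨ 6 ∣ n ∨ 10 ∣ n ∨ 14 ∣ n) → ¬ E n) ∧
  ∀ k, n₀ ≤ k → ∀ y ∈ L,
    ((Ioc (y / 2) y).filter (fun m => Nat.Coprime m 210 ∧ E (2 * k * m))).card ≤ y / 8

theorem forward {E : ℕ → Prop} (h : ∃ X₀ : ℝ, ∀ x : ℝ, X₀ ≤ x → ∀ q : ℕ, 0 < q →
    x / 199 ≤ (q : ℝ) → (q : ℝ) ≤ x / 4 → Few E x q) : ∃ n₀, Cond E n₀ := by
  obtain ⟨X₀, h⟩ := h
  obtain ⟨n₀, hn₀⟩ := exists_nat_ge (max X₀ 1)
  have hn1 : X₀ ≤ n₀ := (le_max_left _ _).trans hn₀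
  have hn2 : 1 ≤ n₀ := by exact_mod_cast (le_max_right _ _).trans hn₀
  refine ⟨n₀, ?_, ?_⟩
  · -- one multiple
    have key : ∀ m q : ℕ, 4 ≤ m → m < 8 → n₀ ≤ m * q → Even (m * q) → ¬ E (m * q) := by
      intro m q hm4 hm8 hn he hE
      have hq : 0 < q := by
        rcases Nat.eq_zero_or_pos q with h0 | h0
        · subst h0; simp at hn; omega
        · exact h0
      have hq' : (0 : ℝ) < q := by exact_mod_cast hq
      have hm4' : (4 : ℝ) ≤ m := by exact_mod_cast hm4
      have hm8' : (m : ℝ) + 1 ≤ 8 := by exact_mod_cast hm8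
      have hx : X₀ ≤ ((m * q : ℕ) : ℝ) := hn1.trans (by exact_mod_cast hn)
      have h1 := h ((m * q : ℕ) : ℝ) hx q hq (by push_cast; nlinarith) (by push_cast; nlinarith)
      have h2 : m * q ∈ (Icc 1 ⌊((m * q : ℕ) : ℝ)⌋₊).filter
          (fun n : ℕ => ((m * q : ℕ) : ℝ) / 2 < (n : ℝ) ∧ Even n ∧ q ∣ n ∧ E n) := by
        rw [mem_filter, mem_Icc, Nat.floor_natCast]
        refine ⟨⟨by omega, le_rfl⟩, ?_, he, Dvd.intro_left m rfl, hE⟩
        have : (0 : ℝ) < ((m * q : ℕ) : ℝ) := by push_cast; positivity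
        linarith
      have h3 := card_pos.2 ⟨_, h2⟩
      have h4 : (1 : ℝ) ≤ (((Icc 1 ⌊((m * q : ℕ) : ℝ)⌋₊).filter
          (fun n : ℕ => ((m * q : ℕ) : ℝ) / 2 < (n : ℝ) ∧ Even n ∧ q ∣ n ∧ E n)).card : ℝ) := by
        exact_mod_cast h3
      have h5 : ((m * q : ℕ) : ℝ) / (8 * (q : ℝ)) < 1 := by
        rw [div_lt_one (by positivity)]
        push_cast
        nlinarith
      unfold Few at h1
      linarith
    intro n hn hd hE
    rcases hd with ⟨j, rfl⟩ | ⟨j, rfl⟩ | ⟨j, rfl⟩ | ⟨j, rfl⟩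
    · exact key 4 j (by norm_num) (by norm_num) hn ⟨2 * j, by ring⟩ hE
    · exact key 6 j (by norm_num) (by norm_num) hn ⟨3 * j, by ring⟩ hE
    · have e : 10 * j = 5 * (2 * j) := by ring
      rw [e] at hn hE
      exact key 5 (2 * j) (by norm_num) (by norm_num) hn ⟨5 * j, by ring⟩ hE
    · have e : 14 * j = 7 * (2 * j) := by ring
      rw [e] at hn hE
      exact key 7 (2 * j) (by norm_num) (by norm_num) hn ⟨7 * j, by ring⟩ hE
  · intro k hk y hy
    obtain ⟨hy4, hy199⟩ := L_facts hy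
    have hk1 : 0 < k := by omega
    have hk1' : (0 : ℝ) < k := by exact_mod_cast hk1
    have hy4' : (4 : ℝ) ≤ y := by exact_mod_cast hy4
    have hy199' : (y : ℝ) ≤ 199 := by exact_mod_cast hy199
    have hkn : (n₀ : ℝ) ≤ k := by exact_mod_cast hk
    have hx : X₀ ≤ ((2 * k * y : ℕ) : ℝ) := by
      push_cast
      nlinarith
    have h1 := h ((2 * k * y : ℕ) : ℝ) hx (2 * k) (by omega) (by push_cast; nlinarith)
      (by push_cast; nlinarith)
    unfold Few at h1
    have h2 : ((Ioc (y / 2) y).filter (fun m => Nat.Coprime m 210 ∧ E (2 * k * m))).card ≤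
        ((Icc 1 ⌊((2 * k * y : ℕ) : ℝ)⌋₊).filter (fun n : ℕ => ((2 * k * y : ℕ) : ℝ) / 2 < (n : ℝ) ∧
          Even n ∧ 2 * k ∣ n ∧ E n)).card := by
      refine card_le_card_of_injOn (fun m => 2 * k * m) ?_ ?_
      · intro m hm
        obtain ⟨hm1, -, hm2⟩ := mem_filter.1 (mem_coe.1 hm)
        rw [mem_Ioc] at hm1
        rw [mem_coe, mem_filter, mem_Icc, Nat.floor_natCast]
        refine ⟨⟨?_, Nat.mul_le_mul_left _ hm1.2⟩, ?_, ⟨k * m, by ring⟩, Dvd.intro m rfl, hm2⟩
        · have : 0 < m := by omega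
          exact Nat.succ_le_of_lt (by positivity)
        · have h5 : y < 2 * m := by omega
          have h6 : (y : ℝ) < 2 * m := by exact_mod_cast h5
          push_cast
          nlinarith
      · intro m _ m' _ e
        have e' : 2 * k * m = 2 * k * m' := e
        exact Nat.eq_of_mul_eq_mul_left (by omega) e'
    have h3 : (((Ioc (y / 2) y).filter (fun m => Nat.Coprime m 210 ∧ E (2 * k * m))).card : ℝ) ≤
        (y : ℝ) / 8 := by
      have h4 : ((2 * k * y : ℕ) : ℝ) / (8 * ((2 * k : ℕ) : ℝ)) = (y : ℝ) / 8 := by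
        push_cast
        field_simp
      rw [h4] at h1
      exact le_trans (by exact_mod_cast h2) h1
    rw [Nat.le_div_iff_mul_le (by norm_num)]
    have h4 : (((Ioc (y / 2) y).filter (fun m => Nat.Coprime m 210 ∧ E (2 * k * m))).card : ℝ) * 8 ≤
        (y : ℝ) := by linarith
    exact_mod_cast h4

/-- the even moduli -/
theorem back_even {E : ℕ → Prop} {n₀ : ℕ} (h : Cond E n₀) {x : ℝ} (hx : 800 * ((n₀ : ℝ) + 1) ≤ x)
    {k : ℕ} (hk : 0 < k) (hkx : ((2 * k : ℕ) : ℝ) ≤ x / 4) : Few E x (2 * k) := by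
  obtain ⟨hA, hB⟩ := h
  have hn0 : (0 : ℝ) ≤ n₀ := Nat.cast_nonneg _
  have hx0 : 0 < x := by linarith
  unfold Few
  set F := (Icc 1 ⌊x⌋₊).filter (fun n : ℕ => x / 2 < (n : ℝ) ∧ Even n ∧ 2 * k ∣ n ∧ E n) with hF
  have hk' : (0 : ℝ) < k := by exact_mod_cast hk
  rcases F.eq_empty_or_nonempty with h0 | hne
  · rw [h0]
    simp only [card_empty, Nat.cast_zero]
    positivity
  -- the quotients
  have hFm : ∀ n ∈ F, (n : ℝ) ≤ x ∧ x / 2 < n ∧ E n ∧ ∃ m, n = 2 * k * m := by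
    intro n hn
    obtain ⟨h1, h2, -, h3, h4⟩ := mem_filter.1 hn
    rw [mem_Icc] at h1
    obtain ⟨m, rfl⟩ := h3
    exact ⟨(Nat.le_floor_iff hx0.le).1 h1.2, h2, h4, m, rfl⟩
  set M := F.image (fun n => n / (2 * k)) with hM
  have hMne : M.Nonempty := hne.image _
  have hMm : ∀ m ∈ M, 2 * k * m ∈ F := by
    intro m hm
    obtain ⟨n, hn, rfl⟩ := mem_image.1 hm
    obtain ⟨-, -, -, m', e⟩ := hFm n hn
    have e2 : n / (2 * k) = m' := by rw [e]; exact Nat.mul_div_cancel_left _ (by omega)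
    show 2 * k * (n / (2 * k)) ∈ F
    rw [e2, ← e]
    exact hn
  have hcard : M.card = F.card := by
    refine card_image_of_injOn ?_
    intro n hn n' hn' e
    obtain ⟨-, -, -, m, e1⟩ := hFm n hn
    obtain ⟨-, -, -, m', e1'⟩ := hFm n' hn'
    have e2 : n / (2 * k) = m := by rw [e1]; exact Nat.mul_div_cancel_left _ (by omega)
    have e2' : n' / (2 * k) = m' := by rw [e1']; exact Nat.mul_div_cancel_left _ (by omega)
    have e3 : n / (2 * k) = n' / (2 * k) := e
    rw [e1, e1', ← e2, ← e2', e3]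
  obtain ⟨y, hy⟩ : ∃ y, y = M.max' hMne := ⟨_, rfl⟩
  have hyM : y ∈ M := by rw [hy]; exact M.max'_mem hMne
  have hyF := hFm _ (hMm y hyM)
  have hcop : ∀ m ∈ M, Nat.Coprime m 210 := by
    intro m hm
    obtain ⟨h1, h2, h3, -⟩ := hFm _ (hMm m hm)
    have h4 : n₀ ≤ 2 * k * m := by
      have : (n₀ : ℝ) ≤ ((2 * k * m : ℕ) : ℝ) := by linarith
      exact_mod_cast this
    have h5 := fun hd => hA _ h4 hd h3
    have c2 : Nat.Coprime m 2 := by
      rw [Nat.coprime_comm, Nat.Prime.coprime_iff_not_dvd Nat.prime_two]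
      rintro ⟨j, rfl⟩
      exact h5 (Or.inl ⟨k * j, by ring⟩)
    have c3 : Nat.Coprime m 3 := by
      rw [Nat.coprime_comm, Nat.Prime.coprime_iff_not_dvd Nat.prime_three]
      rintro ⟨j, rfl⟩
      exact h5 (Or.inr (Or.inl ⟨k * j, by ring⟩))
    have c5 : Nat.Coprime m 5 := by
      rw [Nat.coprime_comm, Nat.Prime.coprime_iff_not_dvd Nat.prime_five]
      rintro ⟨j, rfl⟩
      exact h5 (Or.inr (Or.inr (Or.inl ⟨k * j, by ring⟩)))
    have c7 : Nat.Coprime m 7 := by
      rw [Nat.coprime_comm, Nat.Prime.coprime_iff_not_dvd (by norm_num)]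
      rintro ⟨j, rfl⟩
      exact h5 (Or.inr (Or.inr (Or.inr ⟨k * j, by ring⟩)))
    have e : (210 : ℕ) = 2 * 3 * 5 * 7 := by norm_num
    rw [e]
    exact Nat.Coprime.mul_right (Nat.Coprime.mul_right (Nat.Coprime.mul_right c2 c3) c5) c7
  have hMsub : M ⊆ (Ioc (y / 2) y).filter (fun m => Nat.Coprime m 210 ∧ E (2 * k * m)) := by
    intro m hm
    obtain ⟨h1, h2, h3, -⟩ := hFm _ (hMm m hm)
    rw [mem_filter, mem_Ioc]
    refine ⟨⟨?_, ?_⟩, hcop m hm, h3⟩
    · have h4 : ((2 * k * y : ℕ) : ℝ) < 2 * ((2 * k * m : ℕ) : ℝ) := by linarith [hyF.1]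
      have h5 : 2 * k * y < 2 * (2 * k * m) := by exact_mod_cast h4
      have h6 : 2 * k * y < 2 * k * (2 * m) := by
        calc 2 * k * y < 2 * (2 * k * m) := h5
          _ = 2 * k * (2 * m) := by ring
      have h7 := Nat.lt_of_mul_lt_mul_left h6
      omega
    · rw [hy]; exact M.le_max' m hm
  have hy2 : 2 ≤ y := by
    have h4 : 2 * ((2 * k : ℕ) : ℝ) < ((2 * k * y : ℕ) : ℝ) := by linarith [hyF.2.1]
    have h5 : 2 * (2 * k) < 2 * k * y := by exact_mod_cast h4
    have h6 : 2 * k * 2 < 2 * k * y := by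
      calc 2 * k * 2 = 2 * (2 * k) := by ring
        _ < 2 * k * y := h5
    exact (Nat.lt_of_mul_lt_mul_left h6).le
  have hMy : M.card ≤ y / 8 := by
    by_cases hyL : y ∈ L
    · refine (card_le_card hMsub).trans (hB k ?_ y hyL)
      have h4 : (y : ℝ) ≤ 199 := by exact_mod_cast (L_facts hyL).2
      have h5 : x / 2 < 2 * k * y := by
        have := hyF.2.1
        push_cast at this
        exact this
      have h6 : (n₀ : ℝ) ≤ k := by nlinarith
      exact_mod_cast h6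
    · refine le_trans (card_le_card (hMsub.trans ?_)) (cn_le hy2 (hcop y hyM) hyL)
      intro m hm
      rw [mem_filter] at hm ⊢
      exact ⟨hm.1, hm.2.1⟩
  rw [← hcard]
  have h7 : (M.card : ℝ) ≤ (y : ℝ) / 8 := by
    rw [Nat.le_div_iff_mul_le (by norm_num)] at hMy
    have : (M.card : ℝ) * 8 ≤ y := by exact_mod_cast hMy
    linarith
  refine h7.trans ?_
  have h8 := hyF.1
  push_cast at h8 ⊢
  rw [div_le_div_iff₀ (by norm_num) (by positivity)]
  nlinarith

theorem backward {E : ℕ → Prop} (h : ∃ n₀, Cond E n₀) : ∃ X₀ : ℝ, ∀ x : ℝ, X₀ ≤ x → ∀ q : ℕ,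
    0 < q → (q : ℝ) ≤ x / 4 → Few E x q := by
  obtain ⟨n₀, h⟩ := h
  refine ⟨800 * ((n₀ : ℝ) + 1), fun x hx q hq hqx => ?_⟩
  have hn0 : (0 : ℝ) ≤ n₀ := Nat.cast_nonneg _
  have hx0 : 0 < x := by linarith
  have hq' : (0 : ℝ) < q := by exact_mod_cast hq
  rcases Nat.even_or_odd q with ⟨k, hk⟩ | hodd
  · have e : q = 2 * k := by omega
    subst e
    exact back_even h hx (by omega) hqx
  · have h2q : ∀ n, Even n → q ∣ n → 2 * q ∣ n := by
      intro n hn hqn
      exact Nat.Coprime.mul_dvd_of_dvd_of_dvd (Nat.coprime_two_left.2 hodd) (even_iff_two_dvd.1 hn) hqn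
    by_cases hbig : ((2 * q : ℕ) : ℝ) ≤ x / 4
    · have h1 := back_even h hx hq hbig
      unfold Few at h1 ⊢
      have h2 : (Icc 1 ⌊x⌋₊).filter (fun n : ℕ => x / 2 < (n : ℝ) ∧ Even n ∧ q ∣ n ∧ E n) ⊆
          (Icc 1 ⌊x⌋₊).filter (fun n : ℕ => x / 2 < (n : ℝ) ∧ Even n ∧ 2 * q ∣ n ∧ E n) := by
        intro n hn
        rw [mem_filter] at hn ⊢
        exact ⟨hn.1, hn.2.1, hn.2.2.1, h2q n hn.2.2.1 hn.2.2.2.1, hn.2.2.2.2⟩
      have h3 := card_le_card h2
      calc _ ≤ (((Icc 1 ⌊x⌋₊).filter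
            (fun n : ℕ => x / 2 < (n : ℝ) ∧ Even n ∧ 2 * q ∣ n ∧ E n)).card : ℝ) := by
            exact_mod_cast h3
        _ ≤ x / (8 * ((2 * q : ℕ) : ℝ)) := h1
        _ ≤ x / (8 * (q : ℝ)) := by
          push_cast
          apply div_le_div_of_nonneg_left hx0.le (by positivity)
          linarith
    · unfold Few
      have h2 : (Icc 1 ⌊x⌋₊).filter (fun n : ℕ => x / 2 < (n : ℝ) ∧ Even n ∧ q ∣ n ∧ E n) = ∅ := by
        rw [filter_eq_empty_iff]
        rintro n hn ⟨h3, h4, h5, h6⟩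
        rw [mem_Icc] at hn
        have h7 : (n : ℝ) ≤ x := (Nat.le_floor_iff hx0.le).1 hn.2
        obtain ⟨m, rfl⟩ := h2q n h4 h5
        push_cast at hbig h3 h7
        have h8 : m < 4 := by
          have : (m : ℝ) < 4 := by
            by_contra hcon
            push Not at hcon
            nlinarith
          exact_mod_cast this
        have h9 : 1 < m := by
          have : (1 : ℝ) < m := by
            by_contra hcon
            push Not at hcon
            nlinarith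
          exact_mod_cast this
        have h10 : n₀ ≤ 2 * q * m := by
          have : (n₀ : ℝ) ≤ ((2 * q * m : ℕ) : ℝ) := by push_cast; linarith
          exact_mod_cast this
        refine h.1 _ h10 ?_ h6
        interval_cases m
        · exact Or.inl ⟨q, by ring⟩
        · exact Or.inr (Or.inl ⟨q, by ring⟩)
      rw [h2]
      simp only [card_empty, Nat.cast_zero]
      positivity

end main

end Pool.Agent.E8helper15.TR
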